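import Pool.Agent.Q44.Appr
import Pool.Agent.Q319.CY.Per
import Pool.Agent.Y927.GP.M2
import Pool.Agent.Y927.GP.F

/-!
# The cycles of the maps `T_{a,b}` avoid the integers given by continued fractions

* `a = 3`, `b` odd: there is `κ > 0` such that, for all irrational `α` outside a set of Hausdorff dimension at most
  `1 - κ / 2`, in particular for almost every real number, and all integers `(u, v) ≠ (0, 0)`, only finitely many of the
  integers `± (u p + v q)`, `p / q` a convergent of the continued fraction of `α`, are elements of cycles of `T_{3,b}`.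
* `a ≥ 5` odd: the same for the elements `x` of the cycles of `T_{a,b}` all of whose elements are smaller than
  `|x| ^ s`, `s < log_2 a / 2`.
The same for the approximations of other qualities, for the points of `ℝ ^ d`, and for the values of polynomials at the
denominator and the numerators.
-/

set_option autoImplicit false

namespace Pool.Agent.Results.MP_dee342_nt.GoodApproximations

open Finset MeasureTheory Filter Polynomial Pool.Agent.Y927.GP
open Pool.Agent.Q44.CF (AtApproximations at_of)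

/-- The map `T_{a,b}`. -/
def T (a b x : ℤ) : ℤ := if x % 2 = 0 then x / 2 else (a * x + b) / 2

/-- The set `c` is a cycle (periodic orbit) of the map `F`. -/
def IsCycle (F : ℤ → ℤ) (c : Set ℤ) : Prop :=
  ∃ (x : ℤ) (p : ℕ), 1 ≤ p ∧ F^[p] x = x ∧ c = {y | ∃ k < p, y = F^[k] x}

/-- `x` is an element of a cycle of `T_{a,b}`. -/
def InCycle (a b x : ℤ) : Prop := ∃ c : Set ℤ, IsCycle (T a b) c ∧ x ∈ c

/-- `x` is an element of a cycle of `T_{a,b}` all of whose elements are smaller than `|x| ^ s` in absolute value. -/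
def InLowCycle (s : ℝ) (a b x : ℤ) : Prop :=
  ∃ c : Set ℤ, IsCycle (T a b) c ∧ x ∈ c ∧ ∀ z ∈ c, |(z : ℝ)| < |(x : ℝ)| ^ s

open Classical in
/-- there is `κ > 0` such that the integers `± n`, for the `n` given by good rational approximations of real numbers and
real points in the sense of `AtApproximations (1 - κ)`, do not have the property `P` -/
def Avoided (P : ℤ → Prop) : Prop :=
  ∃ κ : ℝ, 0 < κ ∧ κ ≤ 1 ∧ AtApproximations (1 - κ) (fun n : ℕ => ∀ x : ℤ, x.natAbs = n → ¬ P x)

lemma rare (P : ℤ → Prop) (C κ : ℝ) (hκ : 0 < κ)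
    (hP : ∀ X : ℝ, 1 ≤ X → ∀ F : Finset ℤ, (∀ x ∈ F, |(x : ℝ)| ≤ X ∧ P x) → (F.card : ℝ) ≤ C * X ^ (1 - κ)) :
    Avoided P := by
  classical
  refine ⟨min κ 1, lt_min hκ one_pos, min_le_right _ _, at_of (B := fun n : ℕ => ∃ x : ℤ, x.natAbs = n ∧ P x)
    (by linarith [min_le_right κ 1]) ?_ (fun n h => by push Not at h; exact h)⟩
  refine Pool.Agent.Q21.DW.ps_of (T := ℤ) (fun X : ℕ => {x : ℤ | |(x : ℝ)| ≤ (X : ℝ) ∧ P x}) Int.natAbs _ _ ?_ ?_
  · intro ε hε
    refine ⟨|C|, fun X hX => ?_⟩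
    have hfin : {x : ℤ | |(x : ℝ)| ≤ (X : ℝ) ∧ P x}.Finite := by
      refine (Set.finite_Icc (-(X : ℤ)) X).subset ?_
      rintro k ⟨hk, -⟩
      have h1 : |k| ≤ (X : ℤ) := by exact_mod_cast hk
      exact abs_le.1 h1
    refine ⟨hfin, ?_⟩
    have hX1 : (1 : ℝ) ≤ X := by exact_mod_cast hX
    rw [Set.ncard_eq_toFinset_card _ hfin]
    refine (hP X hX1 hfin.toFinset fun x hx => hfin.mem_toFinset.1 hx).trans ?_
    calc C * (X : ℝ) ^ (1 - κ) ≤ |C| * (X : ℝ) ^ (1 - κ) :=
          mul_le_mul_of_nonneg_right (le_abs_self C) (by positivity)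
      _ ≤ _ := mul_le_mul_of_nonneg_left (Real.rpow_le_rpow_of_exponent_le hX1
          (by linarith [min_le_left κ 1])) (abs_nonneg C)
  · rintro n N hn hnN ⟨x, hx, hPx⟩
    refine ⟨x, ⟨?_, hPx⟩, hx⟩
    have h1 : |(x : ℝ)| = (n : ℝ) := by rw [← hx, Nat.cast_natAbs, Int.cast_abs]
    rw [h1]
    exact_mod_cast hnN

/-- an element of a cycle is periodic -/
lemma cycle_per {F : ℤ → ℤ} {c : Set ℤ} (h : IsCycle F c) {y : ℤ} (hy : y ∈ c) : ∃ p : ℕ, 1 ≤ p ∧ F^[p] y = y := by
  obtain ⟨x, p, hp, hx, rfl⟩ := h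
  obtain ⟨k, hk, rfl⟩ := hy
  refine ⟨p, hp, ?_⟩
  rw [← Function.iterate_add_apply, add_comm, Function.iterate_add_apply, hx]

/-- the orbit of an element of a cycle is in the cycle -/
lemma cycle_iter {F : ℤ → ℤ} {c : Set ℤ} (h : IsCycle F c) {y : ℤ} (hy : y ∈ c) (j : ℕ) : F^[j] y ∈ c := by
  obtain ⟨x, p, hp, hx, rfl⟩ := h
  obtain ⟨k, hk, rfl⟩ := hy
  refine ⟨(j + k) % p, Nat.mod_lt _ (by omega), ?_⟩
  rw [← Function.iterate_add_apply]
  conv_lhs => rw [← Nat.mod_add_div (j + k) p]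
  rw [Function.iterate_add_apply]
  congr 1
  have : ∀ t : ℕ, F^[p * t] x = x := by
    intro t
    rw [Function.iterate_mul]
    exact Function.iterate_fixed hx t
  exact this _

/-- The map in the library. -/
theorem T_eq (a : ℕ) (b : ℤ) : Mo.T 2 a (fun _ => -b) = T a b := by
  funext x
  unfold Mo.T T
  push_cast
  split_ifs with h
  · rfl
  · congr 1
    ring

/-- **Theorem.** Let `b` be odd.
1. The elements of the cycles of `T_{3,b}` are avoided by the good rational approximations (`Avoided`): for almost every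
   `α` only finitely many of the integers `± (u p + v q)`, `p / q` a convergent of `α`, are elements of cycles.
2. Let `a ≥ 5` be odd and `s < log_2 a / 2`. The same holds for the elements `x` of the cycles of `T_{a,b}` all of whose
   elements are smaller than `|x| ^ s` in absolute value. -/
theorem result (b : ℤ) (hb : Odd b) :
    Avoided (InCycle 3 b) ∧
    ∀ a : ℕ, Odd a → 5 ≤ a → ∀ s : ℝ, s < Real.log a / Real.log 2 / 2 →
      Avoided (InLowCycle s a b) := by
  classical
  have hl2 : 0 < Real.log 2 := Real.log_pos (by norm_num)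
  have setup : ∀ a : ℕ, Odd a → Pool.Agent.H319R2.Leigh.Data 2 (Mo.mm a) (Mo.rr (fun _ => -b)) (Mo.mm a) (fun _ => 1) := by
    intro a ha
    refine Mo.data (r := fun _ => -b) (le_refl 2) ((Nat.coprime_two_right).2 ha) ?_
    intro j h1 h2
    push_cast at h2 ⊢
    have hj : j = 1 := by omega
    rw [hj]
    obtain ⟨u, hu⟩ := ha
    obtain ⟨v, hv⟩ := hb
    rw [hu, hv]
    push_cast
    exact ⟨u + v + 1, by ring⟩
  refine ⟨?_, fun a ha ha5 s hs => ?_⟩
  · have ha : Odd 3 := by decide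
    have D := setup 3 ha
    have hC := Mo.cls (m := 3) (r := fun _ => -b) (le_refl 2)
    have hmu := Mo.mu_eq (le_refl 2) D
    have hT : Pool.Agent.H319R2.Leigh.T 2 (Mo.mm 3) (Mo.rr (fun _ => -b)) = T 3 b := by
      rw [Mo.T_eq]
      exact_mod_cast T_eq 3 b
    have hlog : Real.log (Pool.Agent.H319R2.Leigh.Lam 2 (Mo.mm 3) (Mo.CC 2) (fun _ => 1 / ((2 : ℕ) : ℝ))) < 0 := by
      have h0 : mu (Pool.Agent.H319R2.Leigh.gm D) (Mo.CC 2) (fun _ => 1 / ((2 : ℕ) : ℝ)) =
          Real.log (Pool.Agent.H319R2.Leigh.Lam 2 (Mo.mm 3) (Mo.CC 2) (fun _ => 1 / ((2 : ℕ) : ℝ))) :=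
        (Pool.Agent.H319R2.Leigh.log_Lam D hC).symm
      rw [← h0, hmu]
      have h2 : Real.log 3 < 2 * Real.log 2 := by
        have : (2 : ℝ) * Real.log 2 = Real.log 4 := by
          rw [show (4 : ℝ) = 2 ^ 2 by norm_num, Real.log_pow]
          norm_num
        rw [this]
        exact Real.log_lt_log (by norm_num) (by norm_num)
      push_cast
      norm_num
      linarith
    have hL : Pool.Agent.H319R2.Leigh.Lam 2 (Mo.mm 3) (Mo.CC 2) (fun _ => 1 / ((2 : ℕ) : ℝ)) < 1 := by
      by_contra hcon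
      push Not at hcon
      have := Real.log_nonneg hcon
      linarith
    obtain ⟨K, κ, hκ, hκ1, h⟩ := Pool.Agent.Q319.CY.per_cnt D hC hL
    refine rare _ K κ hκ fun X hX F hF => h X hX F fun x hx => ?_
    obtain ⟨h1, c, hc, hxc⟩ := hF x hx
    refine ⟨h1, Mo.mem_S (le_refl 2) x, ?_⟩
    rw [hT]
    exact cycle_per hc hxc
  · have D := setup a ha
    have hC := Mo.cls (m := a) (r := fun _ => -b) (le_refl 2)
    have hmu := Mo.mu_eq (le_refl 2) D
    have hT : (Pool.Agent.H319R2.Leigh.gm D).T = T a b := by rw [Pool.Agent.H319R2.Leigh.gm_T, Mo.T_eq, T_eq]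
    have h5 : 2 * Real.log 2 < Real.log a := by
      have h1 : Real.log 5 ≤ Real.log a := Real.log_le_log (by norm_num) (by exact_mod_cast ha5)
      have h2 : 2 * Real.log 2 < Real.log 5 := by
        have : (2 : ℝ) * Real.log 2 = Real.log 4 := by
          rw [show (4 : ℝ) = 2 ^ 2 by norm_num, Real.log_pow]
          norm_num
        rw [this]
        exact Real.log_lt_log (by norm_num) (by norm_num)
      linarith
    obtain ⟨τ, hτ⟩ : ∃ τ : ℝ, τ = Real.log a / Real.log 2 / 2 - 1 := ⟨_, rfl⟩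
    have hτ0 : 0 < τ := by
      rw [hτ]
      have : 2 < Real.log a / Real.log 2 := by
        rw [lt_div_iff₀ hl2]
        exact h5
      linarith
    have hd2 : (((Pool.Agent.H319R2.Leigh.gm D).d : ℕ) : ℝ) = 2 := by
      have : (Pool.Agent.H319R2.Leigh.gm D).d = 2 := rfl
      rw [this]
      norm_num
    have hmu2 : mu (Pool.Agent.H319R2.Leigh.gm D) (Mo.CC 2) (fun _ => 1 / ((2 : ℕ) : ℝ)) =
        τ * Real.log (Pool.Agent.H319R2.Leigh.gm D).d := by
      rw [hmu, hd2, hτ]
      push_cast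
      field_simp
      ring
    obtain ⟨δ, K, hδ, hδ1, hK, h⟩ := up_main (Pool.Agent.H319R2.Leigh.gm_fac D)
      (Pool.Agent.H319R2.Leigh.gm_cls D hC) (f := (X : ℤ[X])) natDegree_X.ge hτ0 hmu2
      (ε := 1 + τ - s) (by rw [hτ]; linarith)
    refine rare _ K δ hδ fun X' hX F hF => h X' hX F fun x hx => ?_
    obtain ⟨h1, c, hc, hxc, hlow⟩ := hF x hx
    refine ⟨h1, Mo.mem_S (le_refl 2) _, fun k => ?_⟩
    have h2 := hlow _ (cycle_iter hc hxc k)
    rw [eval_X, hT, natDegree_X]
    have e1 : 1 + τ / ((1 : ℕ) : ℝ) - (1 + τ - s) = s := by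
      push_cast
      ring
    rw [e1]
    exact h2

end Pool.Agent.Results.MP_dee342_nt.GoodApproximations
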