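import Pool.Agent.Q179.CY.Win

set_option autoImplicit false

/-!
# Lengths of the cycles of the maps `T_{a,b}` in short windows

Let `a ≥ 3` and `b` be odd (in particular the `3x+1` and the `5x+1` map). For every `δ > 0` only
`O (P exp (-c √(log P)))` of the integers `Q + 1, ..., Q + P` are lengths of cycles of `T_{a,b}` on the integers, for
all windows with `P ≥ (log (Q + 1)) ^ (1 + δ)`: almost all members of windows which are hardly longer than the
logarithm of their position are not lengths of cycles. The constant `c > 0` depends on `a` and `δ` only.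

The windows may be so short because of two facts: the cycles whose length `p` has `p log 2 / log a` not near to an
integer are few (all cycles together contain every integer at most once, so the sum of their multiplicative defects
grows only like a logarithm), and the `p` for which this number is near to an integer are few in every window by
lower bounds for linear forms in two logarithms.
-/

namespace Pool.Agent.Results.MP_dee342_nt.LengthsInShortWindows

open Finset Filter Topology

/-- the map `T_{a,b}` on the integers -/
def T (a b x : ℤ) : ℤ := if x % 2 = 0 then x / 2 else (a * x + b) / 2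

/-- the periodic orbits (cycles) of a map on the integers, as finite sets:
`{x, f x, ..., f^(p-1) x}` with `p ≥ 1` and `f^p x = x` -/
def IsCycle (f : ℤ → ℤ) (c : Finset ℤ) : Prop :=
  ∃ x : ℤ, ∃ p : ℕ, 1 ≤ p ∧ f^[p] x = x ∧ c = (range p).image (fun j => f^[j] x)

/-- the numbers `p` with `Q < p ≤ Q + P` for which some cycle has exactly `p` elements -/
def lengths (f : ℤ → ℤ) (Q P : ℕ) : Set ℕ := {p | Q < p ∧ p ≤ Q + P ∧ ∃ c, IsCycle f c ∧ c.card = p}

/-- the exponent of `a` in one step -/
def ex (x : ℤ) : ℕ := if x % 2 = 1 then 1 else 0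

theorem model (a b : ℤ) (ha : a % 2 = 1) (ha3 : 3 ≤ a) (hb : b % 2 = 1) :
    Pool.Agent.H446R2.CS.Model (T a b) 2 a.toNat ex |(b : ℝ)| where
  hd := by norm_num
  hβ := by omega
  bd := by
    intro x
    have hta : ((a.toNat : ℕ) : ℤ) = a := Int.toNat_of_nonneg (by omega)
    rw [hta]
    rcases Int.emod_two_eq_zero_or_one x with h | h
    · have h1 : (2 : ℤ) * T a b x = x := by
        unfold T
        rw [if_pos h]
        omega
      have h2 : ex x = 0 := by
        unfold ex
        rw [if_neg (by omega)]
      rw [h2, pow_zero, one_mul]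
      have h3 : (((2 : ℕ) : ℤ) * T a b x) = x := by exact_mod_cast h1
      rw [h3, sub_self, abs_zero]
      exact abs_nonneg _
    · have h1 : (2 : ℤ) * T a b x = a * x + b := by
        unfold T
        rw [if_neg (by omega)]
        have h4 : (a * x + b) % 2 = 0 := by
          rw [Int.add_emod, Int.mul_emod, ha, h, hb]
          norm_num
        omega
      have h2 : ex x = 1 := by
        unfold ex
        rw [if_pos h]
      rw [h2, pow_one]
      have h3 : (((2 : ℕ) : ℤ) * T a b x) = a * x + b := by exact_mod_cast h1
      rw [h3]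
      push_cast
      rw [add_sub_cancel_left]

/-- For every odd `a ≥ 3` and every `δ > 0` there is `c > 0` such that for every odd `b` there is `C` with the
following property. If `Q ≥ 0` and `P ≥ 1` are integers with `P ≥ (log (Q + 1)) ^ (1 + δ)`, then at most
`C P exp (-c √(log P))` of the numbers `Q + 1, ..., Q + P` are numbers of elements of cycles of `T_{a,b}`. -/
theorem result (a : ℤ) (ha : a % 2 = 1) (ha3 : 3 ≤ a) (δ : ℝ) (hδ : 0 < δ) :
    ∃ c : ℝ, 0 < c ∧ ∀ b : ℤ, b % 2 = 1 → ∃ C : ℝ, ∀ Q P : ℕ, 1 ≤ P → Real.log (Q + 1) ^ (1 + δ) ≤ P →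
      ((lengths (T a b) Q P).ncard : ℝ) ≤ C * P * Real.exp (-(c * Real.sqrt (Real.log P))) := by
  have hta : ((a.toNat : ℕ) : ℤ) = a := Int.toNat_of_nonneg (by omega)
  have hcop : Nat.Coprime a.toNat 2 := by
    rw [Nat.coprime_comm, Nat.coprime_two_left, Nat.odd_iff]
    omega
  obtain ⟨c, hc, h⟩ := Pool.Agent.Q179.CY.windows (d := 2) (β := a.toNat) le_rfl (by omega) hcop hδ
  refine ⟨c, hc, fun b hb => ?_⟩
  obtain ⟨C, _, hC⟩ := h (T a b) ex _ (model a b ha ha3 hb)
  refine ⟨C, fun Q P hP hQ => ?_⟩
  refine le_trans (le_of_eq ?_) (hC Q P hP hQ)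
  congr 2
  ext p
  unfold lengths Pool.Agent.Q179.CY.lens
  simp only [Set.mem_ofPred_eq, and_assoc]
  exact Iff.rfl

end Pool.Agent.Results.MP_dee342_nt.LengthsInShortWindows
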