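import Pool.Agent.Q37.MG.Div
import Pool.Agent.Results.MP_edb5be_nt.AlmostAllClasses

set_option autoImplicit false

/-!
# Pairs of integers with merging 3x+1 trajectories in residue classes, and the number of cycles

Let `R` be an equivalence relation on the integers for which `x` and `T x` are always equivalent, for
example the relation that the 3x+1 trajectories of `x` and `y` merge. (1) For almost all moduli `q` up to a small
multiple of `N` the proportion `1 / q` of the pairs of equivalent integers `0 < s x, s y ≤ N` satisfy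
`x ≡ y` modulo `q`: the sum over `Q ≤ q < 2 Q` of the errors, all of which are nonnegative, is at most
`(ε N + 288 Q) N`, uniformly in `R` and `Q`. (2) The differences of these pairs have on average as many
divisors as the differences of arbitrary pairs. (3) If the 3x+1 map has at least `k` cycles with
elements of the sign `s`, then for all but `ε Q ^ 2` of the pairs `(q, a)`, `Q ≤ q < 2 Q`,
`0 ≤ a < q`, the integers `x ≡ a` modulo `q`, `0 < s x ≤ K Q`, reach at least `k` different cycles.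
(4) So the 3x+1 map has only finitely many cycles if and only if, for both signs, for some `k` a
positive proportion of the classes to moduli `Q ≤ q < 2 Q`, `Q` arbitrarily large, see fewer than `k`
cycles within `K Q`, for every `K`.

Method. The number of equivalent pairs in the same class modulo `q` minus its expected value is the sum
over all equivalence classes `S` and all residue classes of the squares of the discrepancies of `S`.
For one invariant set `S` this sum over `Q ≤ q < 2 Q` is at most `(ε N + 288 Q)` times the number of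
the elements of `S` up to `N` (large sieve for the large denominators, uniform equidistribution modulo
small denominators), and this bound is linear in `S`.
-/

namespace Pool.Agent.Results.MP_dee342_nt.MergingPairs

/-- The map `T_{3,1}` of the problem, the 3x+1 map. -/
def T (x : ℤ) : ℤ := if x % 2 = 0 then x / 2 else (3 * x + 1) / 2

/-- The trajectories of `x` and `y` merge. -/
def Merge (x y : ℤ) : Prop := ∃ i j : ℕ, T^[i] x = T^[j] y

/-- `x` is an element of a cycle. -/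
def Periodic (x : ℤ) : Prop := ∃ p : ℕ, 1 ≤ p ∧ T^[p] x = x

/-- `R` is an equivalence relation, and `x` and `T x` are always equivalent. -/
def Respects (R : ℤ → ℤ → Prop) : Prop := Equivalence R ∧ ∀ x : ℤ, R x (T x)

/-- The number of the pairs `(x, y)` of equivalent integers with `0 < s x ≤ N`, `0 < s y ≤ N` and
`x ≡ y` modulo `q`. -/
noncomputable def pairs (R : ℤ → ℤ → Prop) (s : ℤ) (N q : ℕ) : ℕ :=
  {p : ℤ × ℤ | (0 < s * p.1 ∧ s * p.1 ≤ N) ∧ (0 < s * p.2 ∧ s * p.2 ≤ N) ∧ p.1 ≡ p.2 [ZMOD q] ∧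
    R p.1 p.2}.ncard

open Classical in
/-- The sum over the pairs `(x, y)`, `x ≠ y`, of equivalent integers with `0 < s x ≤ N`,
`0 < s y ≤ N`, of the number of divisors of `|x - y|`; here `x = s m` and `y = s n`. -/
noncomputable def divisorSum (R : ℤ → ℤ → Prop) (s : ℤ) (N : ℕ) : ℕ :=
  ∑ m ∈ Finset.Icc 1 N, ∑ n ∈ Finset.Icc 1 N, if (m ≠ n ∧ R (s * (m : ℤ)) (s * (n : ℤ))) then
    (Nat.divisors ((m : ℤ) - n).natAbs).card else 0

/-- The integers `x` with `s x ≡ a` modulo `q`, `0 < s x ≤ X`, reach at least `k` different cycles: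
there are `k` of them which reach a cycle and whose trajectories do not merge. -/
def Sees (k : ℕ) (s : ℤ) (X q : ℕ) (a : ℤ) : Prop :=
  ∃ f : Fin k → ℤ, (∀ i, 0 < s * f i ∧ s * f i ≤ X ∧ s * f i ≡ a [ZMOD q] ∧ ∃ n : ℕ, Periodic (T^[n] (f i))) ∧
    ∀ i j, i ≠ j → ¬ Merge (f i) (f j)

/-- The pairs `(q, a)`, `Q ≤ q < 2 Q`, `0 ≤ a < q`, for which the integers `x` with `s x ≡ a` modulo
`q`, `0 < s x ≤ X`, reach fewer than `k` cycles. -/
def Few (k : ℕ) (s : ℤ) (X Q : ℕ) : Set (ℕ × ℕ) :=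
  {p : ℕ × ℕ | Q ≤ p.1 ∧ p.1 < 2 * Q ∧ p.2 < p.1 ∧ ¬ Sees k s X p.1 p.2}

/-! ### proofs -/

open Finset Filter Topology Pool.Agent.Q37.BV Pool.Agent.Q37.MG Pool.Agent.H499R2.CO

theorem T_eq : T = Tz 1 := rfl

theorem T_eq' : T = Pool.Agent.Results.MP_edb5be_nt.AlmostAllClasses.T := rfl

/-! #### merging -/

theorem Merge.refl (x : ℤ) : Merge x x := ⟨0, 0, rfl⟩

theorem Merge.symm {x y : ℤ} (h : Merge x y) : Merge y x := by
  obtain ⟨i, j, h⟩ := h
  exact ⟨j, i, h.symm⟩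

theorem Merge.trans {x y z : ℤ} (h : Merge x y) (h' : Merge y z) : Merge x z := by
  obtain ⟨i, j, h⟩ := h
  obtain ⟨k, l, h'⟩ := h'
  refine ⟨k + i, j + l, ?_⟩
  rw [Function.iterate_add_apply, h, Function.iterate_add_apply, ← h', ← Function.iterate_add_apply,
    ← Function.iterate_add_apply, Nat.add_comm]

theorem merge_T (x : ℤ) : Merge x (T x) := ⟨1, 0, rfl⟩

theorem respects_merge : Respects Merge :=
  ⟨⟨Merge.refl, Merge.symm, Merge.trans⟩, merge_T⟩

theorem per_iter {x : ℤ} (h : Periodic x) (n : ℕ) : Periodic (T^[n] x) := by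
  obtain ⟨p, hp, h⟩ := h
  refine ⟨p, hp, ?_⟩
  rw [← Function.iterate_add_apply, Nat.add_comm, Function.iterate_add_apply, h]

theorem per_mul {x : ℤ} {p : ℕ} (h : T^[p] x = x) (m : ℕ) : T^[m * p] x = x := by
  induction m with
  | zero => rw [Nat.zero_mul]; rfl
  | succ m ih => rw [Nat.succ_mul, Function.iterate_add_apply, h, ih]

theorem reach_of_merge {x y : ℤ} (h : Merge x y) (hx : ∃ n : ℕ, Periodic (T^[n] x)) :
    ∃ n : ℕ, Periodic (T^[n] y) := by
  obtain ⟨i, j, h⟩ := h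
  obtain ⟨n, hn⟩ := hx
  refine ⟨n + j, ?_⟩
  rw [Function.iterate_add_apply, ← h, ← Function.iterate_add_apply, Nat.add_comm,
    Function.iterate_add_apply]
  exact per_iter hn i

/-- only finitely many periodic points merge with a given periodic point -/
theorem per_finite {x : ℤ} (hx : Periodic x) : {y : ℤ | Periodic y ∧ Merge x y}.Finite := by
  obtain ⟨p, hp, hx⟩ := hx
  apply Set.Finite.subset (Finset.finite_toSet ((range p).image (fun n => T^[n] x)))
  rintro y ⟨⟨r, hr, hy⟩, i, j, h⟩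
  rw [mem_coe, mem_image]
  -- y = T^[j r] y = T^[j r - j] (T^[i] x)
  have h1 : T^[(j * r - j) + i] x = y := by
    rw [Function.iterate_add_apply, h, ← Function.iterate_add_apply]
    have : j * r - j + j = j * r := Nat.sub_add_cancel (Nat.le_mul_of_pos_right j hr)
    rw [this]
    exact per_mul hy j
  set m := (j * r - j) + i with hm
  refine ⟨m % p, mem_range.2 (Nat.mod_lt _ (by omega)), ?_⟩
  rw [← h1]
  conv_rhs => rw [← Nat.mod_add_div m p, Nat.mul_comm p, Function.iterate_add_apply, per_mul hx]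

/-- an infinite set of periodic points contains many points of different cycles -/
theorem exists_points {P : Set ℤ} (hP : P.Infinite) (hper : ∀ x ∈ P, Periodic x) (k : ℕ) :
    ∃ F : Finset ℤ, F.card = k ∧ (∀ x ∈ F, x ∈ P) ∧ ∀ x ∈ F, ∀ y ∈ F, x ≠ y → ¬ Merge x y := by
  classical
  induction k with
  | zero => exact ⟨∅, rfl, by simp, by simp⟩
  | succ k ih =>
    obtain ⟨F, h1, h2, h3⟩ := ih
    have hfin : (⋃ x ∈ F, {y : ℤ | Periodic y ∧ Merge x y}).Finite := by
      apply Set.Finite.biUnion (Finset.finite_toSet F)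
      intro x hx
      exact per_finite (hper x (h2 x hx))
    obtain ⟨y, hy1, hy2⟩ := hP.exists_notMem_finite hfin
    have hy3 : ∀ x ∈ F, ¬ Merge x y := by
      intro x hx hxy
      apply hy2
      rw [Set.mem_iUnion₂]
      exact ⟨x, hx, hper y hy1, hxy⟩
    have hy4 : y ∉ F := fun h => hy3 y h (Merge.refl y)
    refine ⟨insert y F, by rw [card_insert_of_notMem hy4, h1], ?_, ?_⟩
    · intro x hx
      rcases mem_insert.1 hx with rfl | hx
      · exact hy1
      · exact h2 x hx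
    · intro x hx z hz hxz
      rcases mem_insert.1 hx with hx' | hx'
      · rcases mem_insert.1 hz with hz' | hz'
        · exact absurd (hx'.trans hz'.symm) hxz
        · rw [hx']
          exact fun h => hy3 z hz' h.symm
      · rcases mem_insert.1 hz with hz' | hz'
        · rw [hz']
          exact hy3 x hx'
        · exact h3 x hx' z hz' hxz

/-! #### the pairs -/

open Classical in
theorem pairs_eq {R : ℤ → ℤ → Prop} (hR : Equivalence R) {s : ℤ} (hs : s = 1 ∨ s = -1) (N q : ℕ) :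
    pairs R s N q = #(pr (fun x : ℤ => (Quotient.mk ⟨R, hR⟩ x : Quotient (⟨R, hR⟩ : Setoid ℤ))) s N q) := by
  have hss : ∀ x : ℤ, s * (s * x) = x := by intro x; rcases hs with rfl | rfl <;> ring
  have hinj : Function.Injective (fun p : ℕ × ℕ => ((s * (p.1 : ℤ), s * (p.2 : ℤ)) : ℤ × ℤ)) := by
    rintro ⟨a, b⟩ ⟨c, d⟩ h
    simp only [Prod.mk.injEq] at h
    have h1 := congrArg (fun x => s * x) h.1
    have h2 := congrArg (fun x => s * x) h.2
    simp only [hss] at h1 h2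
    rw [Prod.mk.injEq]
    exact ⟨by exact_mod_cast h1, by exact_mod_cast h2⟩
  unfold pairs
  rw [← Set.ncard_coe_finset, ← Set.ncard_image_of_injective _ hinj]
  congr 1
  have hcong : ∀ m n : ℕ, s * (m : ℤ) ≡ s * (n : ℤ) [ZMOD q] ↔ m % q = n % q := by
    intro m n
    have e : m % q = n % q ↔ (m : ℤ) ≡ n [ZMOD q] := by
      rw [Int.natCast_modEq_iff]
      rfl
    rw [e]
    constructor
    · intro h
      have := h.mul_left s
      rwa [hss, hss] at this
    · intro h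
      exact h.mul_left s
  ext ⟨x, y⟩
  rw [Set.mem_image]
  constructor
  · rintro ⟨⟨h1, h2⟩, ⟨h3, h4⟩, h5, h6⟩
    simp only at h1 h2 h3 h4 h5 h6
    obtain ⟨m, hm⟩ := Int.eq_ofNat_of_zero_le h1.le
    obtain ⟨n, hn⟩ := Int.eq_ofNat_of_zero_le h3.le
    have hx : s * (m : ℤ) = x := by rw [← hm, hss]
    have hy : s * (n : ℤ) = y := by rw [← hn, hss]
    refine ⟨(m, n), ?_, ?_⟩
    · rw [mem_coe]
      unfold pr
      rw [mem_filter, mem_product, mem_Icc, mem_Icc]
      refine ⟨⟨⟨by omega, by omega⟩, ⟨by omega, by omega⟩⟩, ?_, ?_⟩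
      · rw [← hcong, hx, hy]; exact h5
      · simp only [hx, hy]
        exact Quotient.sound h6
    · simp only [hx, hy]
  · rintro ⟨⟨m, n⟩, h, he⟩
    rw [mem_coe] at h
    unfold pr at h
    rw [mem_filter, mem_product, mem_Icc, mem_Icc] at h
    simp only [Prod.mk.injEq] at he h
    obtain ⟨rfl, rfl⟩ := he
    have h5 : R (s * (m : ℤ)) (s * (n : ℤ)) := Quotient.exact h.2.2
    refine ⟨⟨?_, ?_⟩, ⟨?_, ?_⟩, (hcong m n).2 h.2.1, h5⟩
    · show 0 < s * (s * (m : ℤ)); rw [hss]; have := h.1.1.1; omega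
    · show s * (s * (m : ℤ)) ≤ N; rw [hss]; have := h.1.1.2; omega
    · show 0 < s * (s * (n : ℤ)); rw [hss]; have := h.1.2.1; omega
    · show s * (s * (n : ℤ)) ≤ N; rw [hss]; have := h.1.2.2; omega

open Classical in
theorem divisorSum_eq {R : ℤ → ℤ → Prop} (hR : Equivalence R) (s : ℤ) (N : ℕ) :
    (divisorSum R s N : ℝ) = ∑ m ∈ Icc 1 N, ∑ n ∈ Icc 1 N,
      if (Quotient.mk ⟨R, hR⟩ (s * (m : ℤ)) : Quotient (⟨R, hR⟩ : Setoid ℤ)) = Quotient.mk ⟨R, hR⟩ (s * (n : ℤ))
        then (#(Nat.divisors ((m : ℤ) - n).natAbs) : ℝ) else 0 := by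
  unfold divisorSum
  push_cast
  apply sum_congr rfl
  intro m _
  apply sum_congr rfl
  intro n _
  by_cases h : R (s * (m : ℤ)) (s * (n : ℤ))
  · have h' : (Quotient.mk ⟨R, hR⟩ (s * (m : ℤ)) : Quotient (⟨R, hR⟩ : Setoid ℤ)) = Quotient.mk ⟨R, hR⟩ (s * (n : ℤ)) :=
      Quotient.sound h
    rw [if_pos h']
    by_cases h2 : m = n
    · subst h2
      rw [if_neg (fun h3 => h3.1 rfl), sub_self, Int.natAbs_zero, Nat.divisors_zero, card_empty,
        Nat.cast_zero]
    · rw [if_pos ⟨h2, h⟩]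
  · rw [if_neg (fun h3 => h h3.2), if_neg (fun h3 => h (Quotient.exact h3))]

/-! #### the number of cycles -/

theorem few_small {k : ℕ} {f : Fin k → ℤ} {s : ℤ} (hs : s = 1 ∨ s = -1)
    (hf : ∀ i, 0 < s * f i ∧ ∃ n : ℕ, Periodic (T^[n] (f i))) (hm : ∀ i j, i ≠ j → ¬ Merge (f i) (f j))
    {ε : ℝ} (hε : 0 < ε) : ∃ K : ℕ, ∃ Q₀ : ℕ, ∀ Q : ℕ, Q₀ ≤ Q → ((Few k s (K * Q) Q).ncard : ℝ) ≤ ε * Q ^ 2 := by
  classical
  set S : Fin k → Set ℤ := fun i => {y : ℤ | Merge (f i) y} with hS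
  have hinv : ∀ i, Pool.Agent.Results.MP_edb5be_nt.AlmostAllClasses.Invariant (S i) := by
    intro i x
    constructor
    · intro h
      exact Merge.trans h (merge_T x)
    · intro h
      exact Merge.trans h (merge_T x).symm
  have h1 : ∀ i, ∃ K : ℕ, ∃ Q₀ : ℕ, ∀ Q : ℕ, Q₀ ≤ Q →
      ((Pool.Agent.Results.MP_edb5be_nt.AlmostAllClasses.Missed (S i) s (K * Q) Q).ncard : ℝ) ≤
        ε / (k + 1) * Q ^ 2 := fun i =>
    Pool.Agent.Results.MP_edb5be_nt.AlmostAllClasses.missed_small (hinv i) hs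
      ⟨f i, Merge.refl _, (hf i).1⟩ (by positivity)
  choose K Q₀ h2 using h1
  refine ⟨∑ i, K i, ∑ i, Q₀ i, fun Q hQ => ?_⟩
  have hfin : ∀ (A : Set ℤ) (X : ℕ),
      (Pool.Agent.Results.MP_edb5be_nt.AlmostAllClasses.Missed A s X Q).Finite := by
    intro A X
    apply Set.Finite.subset (Finset.finite_toSet (range (2 * Q) ×ˢ range (2 * Q)))
    rintro ⟨q, a⟩ ⟨_, h3, h4, _⟩
    rw [mem_coe, mem_product, mem_range, mem_range]
    simp only at *
    omega
  have hsub : Few k s ((∑ i, K i) * Q) Q ⊆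
      ⋃ i, Pool.Agent.Results.MP_edb5be_nt.AlmostAllClasses.Missed (S i) s (K i * Q) Q := by
    rintro ⟨q, a⟩ ⟨g1, g2, g3, g4⟩
    by_contra hcon
    apply g4
    rw [Set.mem_iUnion, not_exists] at hcon
    have h3 : ∀ i, ∃ x ∈ S i, 0 < s * x ∧ s * x ≤ ((K i * Q : ℕ) : ℤ) ∧ s * x ≡ (a : ℤ) [ZMOD q] := by
      intro i
      by_contra hno
      apply hcon i
      refine ⟨g1, g2, g3, ?_⟩
      intro x hx k1 k2 k3
      exact hno ⟨x, hx, k1, k2, k3⟩
    choose g h4 h5 h6 h7 using h3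
    refine ⟨g, ?_, ?_⟩
    · intro i
      refine ⟨h5 i, (h6 i).trans ?_, h7 i, reach_of_merge (h4 i) (hf i).2⟩
      have h8 : K i ≤ ∑ i, K i := single_le_sum (f := K) (fun _ _ => Nat.zero_le _) (mem_univ i)
      exact_mod_cast Nat.mul_le_mul_right Q h8
    · intro i j hij hmerge
      exact hm i j hij (((h4 i).trans hmerge).trans (h4 j).symm)
  calc ((Few k s ((∑ i, K i) * Q) Q).ncard : ℝ)
      ≤ ((⋃ i, Pool.Agent.Results.MP_edb5be_nt.AlmostAllClasses.Missed (S i) s (K i * Q) Q).ncard : ℝ) := by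
        exact_mod_cast Set.ncard_le_ncard hsub (Set.finite_iUnion fun i => hfin _ _)
    _ ≤ ∑ i, ((Pool.Agent.Results.MP_edb5be_nt.AlmostAllClasses.Missed (S i) s (K i * Q) Q).ncard : ℝ) := by
        exact_mod_cast Set.ncard_iUnion_le_of_fintype _
    _ ≤ ∑ i : Fin k, ε / (k + 1) * (Q : ℝ) ^ 2 := by
        apply sum_le_sum
        intro i _
        have h8 : Q₀ i ≤ ∑ i, Q₀ i := single_le_sum (f := Q₀) (fun _ _ => Nat.zero_le _) (mem_univ i)
        exact h2 i Q (h8.trans hQ)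
    _ = (k / (k + 1)) * (ε * (Q : ℝ) ^ 2) := by
        rw [sum_const, card_univ, Fintype.card_fin, nsmul_eq_mul]
        ring
    _ ≤ 1 * (ε * (Q : ℝ) ^ 2) := by
        apply mul_le_mul_of_nonneg_right _ (by positivity)
        rw [div_le_one (by positivity)]
        linarith
    _ = ε * Q ^ 2 := one_mul _

/-- the number of all pairs -/
theorem all_pairs (Q : ℕ) : Q ^ 2 ≤ {p : ℕ × ℕ | Q ≤ p.1 ∧ p.1 < 2 * Q ∧ p.2 < p.1}.ncard :=
  Pool.Agent.Results.MP_edb5be_nt.AlmostAllClasses.pairs_card Q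

/-- finitely many periodic points: no class sees many cycles -/
theorem few_of_finite (h : {x : ℤ | Periodic x}.Finite) (s : ℤ) (X q : ℕ) (a : ℤ) :
    ¬ Sees (h.toFinset.card + 1) s X q a := by
  rintro ⟨f, h1, h2⟩
  have h3 : ∀ i, ∃ n : ℕ, Periodic (T^[n] (f i)) := fun i => (h1 i).2.2.2
  choose n h4 using h3
  have h5 := Finset.card_le_card_of_injOn (s := (univ : Finset (Fin (h.toFinset.card + 1)))) (t := h.toFinset)
    (fun i => T^[n i] (f i)) (by
      intro i _
      rw [mem_coe, Set.Finite.mem_toFinset]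
      exact h4 i) (by
      intro i _ j _ hij
      by_contra hne
      exact h2 i j hne ⟨n i, n j, hij⟩)
  rw [card_univ, Fintype.card_fin] at h5
  omega

/-- **The theorem.** -/
theorem result :
    -- (1) equivalent integers in the same residue class
    (∀ ε : ℝ, 0 < ε → ∃ N₀ : ℕ, ∀ R : ℤ → ℤ → Prop, Respects R → ∀ s : ℤ, s = 1 ∨ s = -1 →
      ∀ N : ℕ, N₀ ≤ N → ∀ Q : ℕ, 1 ≤ Q →
        ∑ q ∈ Finset.Ico Q (2 * Q), |(pairs R s N q : ℝ) - pairs R s N 1 / q| ≤
          (ε * N + 288 * Q) * N) ∧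
    -- (2) the divisors of the differences
    (∀ ε : ℝ, 0 < ε → ∃ N₀ : ℕ, ∀ R : ℤ → ℤ → Prop, Respects R → ∀ s : ℤ, s = 1 ∨ s = -1 →
      ∀ N : ℕ, N₀ ≤ N →
        |(divisorSum R s N : ℝ) - pairs R s N 1 * Real.log N| ≤ ε * N ^ 2 * Real.log N) ∧
    -- (3) at least `k` cycles
    (∀ (k : ℕ) (s : ℤ), s = 1 ∨ s = -1 →
      (∃ f : Fin k → ℤ, (∀ i, 0 < s * f i ∧ Periodic (f i)) ∧ ∀ i j, i ≠ j → ¬ Merge (f i) (f j)) →
      ∀ ε : ℝ, 0 < ε → ∃ K Q₀ : ℕ, ∀ Q : ℕ, Q₀ ≤ Q → ((Few k s (K * Q) Q).ncard : ℝ) ≤ ε * Q ^ 2) ∧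
    -- (4) finitely many cycles
    ({x : ℤ | Periodic x}.Finite ↔
      ∀ s : ℤ, s = 1 ∨ s = -1 → ∃ (k : ℕ) (c : ℝ), 0 < c ∧ ∀ K Q₀ : ℕ, ∃ Q : ℕ, Q₀ ≤ Q ∧
        c * Q ^ 2 ≤ ((Few k s (K * Q) Q).ncard : ℝ)) := by
  classical
  refine ⟨?_, ?_, ?_, ?_, ?_⟩
  · intro ε hε
    obtain ⟨N₀, h⟩ := pr_main hε
    refine ⟨N₀, fun R hR s hs N hN Q hQ => ?_⟩
    have h1 := h (Quotient (⟨R, hR.1⟩ : Setoid ℤ)) inferInstance (fun x => Quotient.mk ⟨R, hR.1⟩ x)
      (fun x => (Quotient.sound (hR.2 x)).symm) s hs N hN Q hQ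
    simp_rw [pairs_eq hR.1 hs]
    exact h1
  · intro ε hε
    obtain ⟨N₀, h⟩ := div_main hε
    refine ⟨N₀, fun R hR s hs N hN => ?_⟩
    have h1 := h (Quotient (⟨R, hR.1⟩ : Setoid ℤ)) inferInstance (fun x => Quotient.mk ⟨R, hR.1⟩ x)
      (fun x => (Quotient.sound (hR.2 x)).symm) s hs N hN
    rw [divisorSum_eq hR.1, pairs_eq hR.1 hs]
    exact h1
  · rintro k s hs ⟨f, hf, hm⟩ ε hε
    exact few_small hs (fun i => ⟨(hf i).1, 0, (hf i).2⟩) hm hε
  · intro hfin s _
    refine ⟨hfin.toFinset.card + 1, 1, one_pos, fun K Q₀ => ⟨Q₀, le_rfl, ?_⟩⟩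
    have e1 : Few (hfin.toFinset.card + 1) s (K * Q₀) Q₀ = {p : ℕ × ℕ | Q₀ ≤ p.1 ∧ p.1 < 2 * Q₀ ∧ p.2 < p.1} := by
      ext ⟨q, a⟩
      constructor
      · rintro ⟨h1, h2, h3, _⟩
        exact ⟨h1, h2, h3⟩
      · rintro ⟨h1, h2, h3⟩
        exact ⟨h1, h2, h3, few_of_finite hfin _ _ _ _⟩
    rw [e1, one_mul]
    exact_mod_cast all_pairs Q₀
  · intro hfew
    by_contra hinf
    have h1 : ∃ s : ℤ, (s = 1 ∨ s = -1) ∧ {x : ℤ | Periodic x ∧ 0 < s * x}.Infinite := by
      by_contra hno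
      push Not at hno
      have g1 := hno 1 (Or.inl rfl)
      have g2 := hno (-1) (Or.inr rfl)
      apply hinf
      apply Set.Finite.subset ((g1.union g2).union (Set.finite_singleton (0 : ℤ)))
      intro x hx
      rcases lt_trichotomy x 0 with h | h | h
      · exact Or.inl (Or.inr ⟨hx, by linarith⟩)
      · exact Or.inr h
      · exact Or.inl (Or.inl ⟨hx, by linarith⟩)
    obtain ⟨s, hs, hP⟩ := h1
    obtain ⟨k, c, hc, h2⟩ := hfew s hs
    obtain ⟨F, hF1, hF2, hF3⟩ := exists_points hP (fun x hx => hx.1) k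
    set e := F.equivFinOfCardEq hF1 with he
    obtain ⟨K, Q₀, h3⟩ := few_small (k := k) (f := fun i => ((e.symm i : F) : ℤ)) hs
      (fun i => ⟨(hF2 _ (e.symm i).2).2, 0, (hF2 _ (e.symm i).2).1⟩)
      (fun i j hij => hF3 _ (e.symm i).2 _ (e.symm j).2 (fun h => hij (e.symm.injective (Subtype.ext h))))
      (show 0 < c / 2 by positivity)
    obtain ⟨Q, hQ, h4⟩ := h2 K (max Q₀ 1)
    have h5 := h3 Q ((le_max_left _ _).trans hQ)
    have hQ1 : 1 ≤ Q := (le_max_right _ _).trans hQ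
    have hQ0 : (0 : ℝ) < Q := by exact_mod_cast hQ1
    have : 0 < c * (Q : ℝ) ^ 2 := by positivity
    linarith

end Pool.Agent.Results.MP_dee342_nt.MergingPairs
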