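import Pool.Agent.Q319.DR.Win
import Pool.Agent.Q319.CY.Per
import Pool.Agent.Y927.GP.M2
import Pool.Agent.Y927.GP.F

/-!
# Cycles of the maps `T_{a,b}` and windows at the multiples of almost all real numbers

* `a = 3`, `b` odd: the windows of radius `N ^ c` around the multiples `k y`, `k ≤ N ^ θ`, of almost every real number
  `y` of size `N ^ (1 - θ)` contain NO element of a cycle of `T_{3,b}`, for all but `N ^ (θ - c)` of the `k`; the windows of
  radius `w k` around the numbers `α v k` contain no such element, for almost all `α` and all large `k`, if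
  `∑ w k (v k) ^ (-c)` converges.
* `a ≥ 5`: all the cycles of `T_{a,b}` which have an element `x` in these windows contain an element of absolute value
  at least `|x| ^ s`, for every fixed `s < log_2 a / 2` (`1.1609...` for `a = 5`).

From Mathlib: `volume`: the Lebesgue measure; `∀ᵐ α : ℝ`: for almost all real `α`; `∀ᶠ k in atTop`: for all large `k`;
`^[n]`: iterates. The bounds for trajectories are from the starting files (`Pool.Agent.H319R2`, `Pool.Agent.Y927.GP`), as
well as the count of the elements of arbitrary sets of integers in intervals at multiples of real numbers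
(`Pool.Agent.H438R2.DL`).
-/

set_option autoImplicit false

namespace Pool.Agent.Results.MP_dee342_nt.WindowsWithoutCycles

open Finset MeasureTheory Filter Polynomial Pool.Agent.Y927.GP

/-- The map `T_{a,b}`. -/
def T (a b x : ℤ) : ℤ := if x % 2 = 0 then x / 2 else (a * x + b) / 2

/-- The set `c` is a cycle (periodic orbit) of the map `F`. -/
def IsCycle (F : ℤ → ℤ) (c : Set ℤ) : Prop :=
  ∃ (x : ℤ) (p : ℕ), 1 ≤ p ∧ F^[p] x = x ∧ c = {y | ∃ k < p, y = F^[k] x}

/-- `x` is an element of a cycle of `T_{a,b}`. -/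
def InCycle (a b x : ℤ) : Prop := ∃ c : Set ℤ, IsCycle (T a b) c ∧ x ∈ c

/-- `x` is an element of a cycle of `T_{a,b}` all of whose elements are smaller than `|x| ^ s` in absolute value. -/
def InLowCycle (s : ℝ) (a b x : ℤ) : Prop :=
  ∃ c : Set ℤ, IsCycle (T a b) c ∧ x ∈ c ∧ ∀ z ∈ c, |(z : ℝ)| < |(x : ℝ)| ^ s

open Classical in
/-- The number of the `k` with `1 ≤ k ≤ K` such that some integer `x` whose absolute value is at a distance of at most
`w` from `k y` has the property `P`. -/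
noncomputable def exceptions (K y w : ℝ) (P : ℤ → Prop) : ℕ :=
  ((Icc 1 ⌊K⌋₊).filter (fun k : ℕ => ∃ x : ℤ, |(|(x : ℝ)|) - k * y| ≤ w ∧ P x)).card

/-- For `0 < θ < 1` there is `c > 0` such that for all large `N` and all real `y` with
`N ^ (1 - θ) ≤ y ≤ 2 N ^ (1 - θ)` outside a set of measure at most `N ^ (1 - θ - c)`: for all `k ≤ N ^ θ` with at most
`N ^ (θ - c)` exceptions no integer `x` with `||x| - k y| ≤ N ^ c` has the property `P`. -/
def RareAtMultiples (P : ℤ → Prop) : Prop :=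
  ∀ θ : ℝ, 0 < θ → θ < 1 → ∃ c : ℝ, 0 < c ∧ ∃ N₀ : ℕ, ∀ N : ℕ, N₀ ≤ N →
    ∃ E : Set ℝ, MeasurableSet E ∧ volume E ≤ ENNReal.ofReal ((N : ℝ) ^ (1 - θ - c)) ∧
      ∀ y : ℝ, (N : ℝ) ^ (1 - θ) ≤ y → y ≤ 2 * (N : ℝ) ^ (1 - θ) → y ∉ E →
        (exceptions ((N : ℝ) ^ θ) y ((N : ℝ) ^ c) P : ℝ) ≤ (N : ℝ) ^ (θ - c)

/-- There is `c > 0` such that for all real `v k ≥ 1` and `0 ≤ w k ≤ v k` for which `∑ w k (v k) ^ (-c)` converges and
for almost every real number `α > 0`: for all large `k` no integer `x ≠ 0` with `||x| - α v k| ≤ w k` has the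
property `P`. -/
def RareAtDilates (P : ℤ → Prop) : Prop :=
  ∃ c : ℝ, 0 < c ∧ ∀ v w : ℕ → ℝ, (∀ k, 1 ≤ v k) → (∀ k, 0 ≤ w k ∧ w k ≤ v k) →
    Summable (fun k => w k * v k ^ (-c)) →
    ∀ᵐ α : ℝ, 0 < α → ∀ᶠ k : ℕ in atTop, ∀ x : ℤ, x ≠ 0 → |(|(x : ℝ)|) - α * v k| ≤ w k → ¬ P x

lemma rare (P : ℤ → Prop) (C κ : ℝ) (hκ : 0 < κ)
    (hP : ∀ X : ℝ, 1 ≤ X → ∀ F : Finset ℤ, (∀ x ∈ F, |(x : ℝ)| ≤ X ∧ P x) → (F.card : ℝ) ≤ C * X ^ (1 - κ)) :
    RareAtMultiples P ∧ RareAtDilates P := by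
  classical
  constructor
  · intro θ hθ hθ1
    refine Pool.Agent.Q319.DR.win_mult θ hθ hθ1 κ hκ (fun _ x => P x) (C * 4 ^ (1 - κ)) 1 (fun N hN F hF => ?_)
    have hN1 : (1 : ℝ) ≤ N := by exact_mod_cast hN
    refine (hP (4 * N) (by linarith) F hF).trans (le_of_eq ?_)
    rw [Real.mul_rpow (by norm_num) (by linarith)]
    ring
  · exact ⟨κ, hκ, Pool.Agent.Q319.DR.win_bc κ P C hP⟩

/-- an element of a cycle is periodic -/
lemma cycle_per {F : ℤ → ℤ} {c : Set ℤ} (h : IsCycle F c) {y : ℤ} (hy : y ∈ c) : ∃ p : ℕ, 1 ≤ p ∧ F^[p] y = y := by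
  obtain ⟨x, p, hp, hx, rfl⟩ := h
  obtain ⟨k, hk, rfl⟩ := hy
  refine ⟨p, hp, ?_⟩
  rw [← Function.iterate_add_apply, add_comm, Function.iterate_add_apply, hx]

/-- the orbit of an element of a cycle is in the cycle -/
lemma cycle_iter {F : ℤ → ℤ} {c : Set ℤ} (h : IsCycle F c) {y : ℤ} (hy : y ∈ c) (j : ℕ) : F^[j] y ∈ c := by
  obtain ⟨x, p, hp, hx, rfl⟩ := h
  obtain ⟨k, hk, rfl⟩ := hy
  refine ⟨(j + k) % p, Nat.mod_lt _ (by omega), ?_⟩
  rw [← Function.iterate_add_apply]
  conv_lhs => rw [← Nat.mod_add_div (j + k) p]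
  rw [Function.iterate_add_apply]
  congr 1
  have : ∀ t : ℕ, F^[p * t] x = x := by
    intro t
    rw [Function.iterate_mul]
    exact Function.iterate_fixed hx t
  exact this _

/-- The map in the library. -/
theorem T_eq (a : ℕ) (b : ℤ) : Mo.T 2 a (fun _ => -b) = T a b := by
  funext x
  unfold Mo.T T
  push_cast
  split_ifs with h
  · rfl
  · congr 1
    ring

/-- Let `b` be odd.
1. The elements of the cycles of `T_{3,b}` are rare at the multiples and at the dilates of almost all real numbers: for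
   almost all `y`, and almost all `α`, the windows around the `k y`, with few exceptional `k`, and the windows around the
   `α v k`, for ALL large `k`, contain no element of a cycle.
2. Let `a ≥ 5` be odd and `s < log_2 a / 2`. The same holds for the elements `x` of the cycles of `T_{a,b}` all of whose
   elements are smaller than `|x| ^ s` in absolute value. So all the cycles of `T_{a,b}` through these windows contain an
   element of absolute value at least `|x| ^ s`. -/
theorem result (b : ℤ) (hb : Odd b) :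
    (RareAtMultiples (InCycle 3 b) ∧ RareAtDilates (InCycle 3 b)) ∧
    ∀ a : ℕ, Odd a → 5 ≤ a → ∀ s : ℝ, s < Real.log a / Real.log 2 / 2 →
      RareAtMultiples (InLowCycle s a b) ∧ RareAtDilates (InLowCycle s a b) := by
  classical
  have hl2 : 0 < Real.log 2 := Real.log_pos (by norm_num)
  have setup : ∀ a : ℕ, Odd a → Pool.Agent.H319R2.Leigh.Data 2 (Mo.mm a) (Mo.rr (fun _ => -b)) (Mo.mm a) (fun _ => 1) := by
    intro a ha
    refine Mo.data (r := fun _ => -b) (le_refl 2) ((Nat.coprime_two_right).2 ha) ?_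
    intro j h1 h2
    push_cast at h2 ⊢
    have hj : j = 1 := by omega
    rw [hj]
    obtain ⟨u, hu⟩ := ha
    obtain ⟨v, hv⟩ := hb
    rw [hu, hv]
    push_cast
    exact ⟨u + v + 1, by ring⟩
  refine ⟨?_, fun a ha ha5 s hs => ?_⟩
  · have ha : Odd 3 := by decide
    have D := setup 3 ha
    have hC := Mo.cls (m := 3) (r := fun _ => -b) (le_refl 2)
    have hmu := Mo.mu_eq (le_refl 2) D
    have hT : Pool.Agent.H319R2.Leigh.T 2 (Mo.mm 3) (Mo.rr (fun _ => -b)) = T 3 b := by
      rw [Mo.T_eq]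
      exact_mod_cast T_eq 3 b
    have hlog : Real.log (Pool.Agent.H319R2.Leigh.Lam 2 (Mo.mm 3) (Mo.CC 2) (fun _ => 1 / ((2 : ℕ) : ℝ))) < 0 := by
      have h0 : mu (Pool.Agent.H319R2.Leigh.gm D) (Mo.CC 2) (fun _ => 1 / ((2 : ℕ) : ℝ)) =
          Real.log (Pool.Agent.H319R2.Leigh.Lam 2 (Mo.mm 3) (Mo.CC 2) (fun _ => 1 / ((2 : ℕ) : ℝ))) :=
        (Pool.Agent.H319R2.Leigh.log_Lam D hC).symm
      rw [← h0, hmu]
      have h2 : Real.log 3 < 2 * Real.log 2 := by
        have : (2 : ℝ) * Real.log 2 = Real.log 4 := by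
          rw [show (4 : ℝ) = 2 ^ 2 by norm_num, Real.log_pow]
          norm_num
        rw [this]
        exact Real.log_lt_log (by norm_num) (by norm_num)
      push_cast
      norm_num
      linarith
    have hL : Pool.Agent.H319R2.Leigh.Lam 2 (Mo.mm 3) (Mo.CC 2) (fun _ => 1 / ((2 : ℕ) : ℝ)) < 1 := by
      by_contra hcon
      push Not at hcon
      have := Real.log_nonneg hcon
      linarith
    obtain ⟨K, κ, hκ, hκ1, h⟩ := Pool.Agent.Q319.CY.per_cnt D hC hL
    refine rare _ K κ hκ fun X hX F hF => h X hX F fun x hx => ?_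
    obtain ⟨h1, c, hc, hxc⟩ := hF x hx
    refine ⟨h1, Mo.mem_S (le_refl 2) x, ?_⟩
    rw [hT]
    exact cycle_per hc hxc
  · have D := setup a ha
    have hC := Mo.cls (m := a) (r := fun _ => -b) (le_refl 2)
    have hmu := Mo.mu_eq (le_refl 2) D
    have hT : (Pool.Agent.H319R2.Leigh.gm D).T = T a b := by rw [Pool.Agent.H319R2.Leigh.gm_T, Mo.T_eq, T_eq]
    have h5 : 2 * Real.log 2 < Real.log a := by
      have h1 : Real.log 5 ≤ Real.log a := Real.log_le_log (by norm_num) (by exact_mod_cast ha5)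
      have h2 : 2 * Real.log 2 < Real.log 5 := by
        have : (2 : ℝ) * Real.log 2 = Real.log 4 := by
          rw [show (4 : ℝ) = 2 ^ 2 by norm_num, Real.log_pow]
          norm_num
        rw [this]
        exact Real.log_lt_log (by norm_num) (by norm_num)
      linarith
    obtain ⟨τ, hτ⟩ : ∃ τ : ℝ, τ = Real.log a / Real.log 2 / 2 - 1 := ⟨_, rfl⟩
    have hτ0 : 0 < τ := by
      rw [hτ]
      have : 2 < Real.log a / Real.log 2 := by
        rw [lt_div_iff₀ hl2]
        exact h5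
      linarith
    have hd2 : (((Pool.Agent.H319R2.Leigh.gm D).d : ℕ) : ℝ) = 2 := by
      have : (Pool.Agent.H319R2.Leigh.gm D).d = 2 := rfl
      rw [this]
      norm_num
    have hmu2 : mu (Pool.Agent.H319R2.Leigh.gm D) (Mo.CC 2) (fun _ => 1 / ((2 : ℕ) : ℝ)) =
        τ * Real.log (Pool.Agent.H319R2.Leigh.gm D).d := by
      rw [hmu, hd2, hτ]
      push_cast
      field_simp
      ring
    obtain ⟨δ, K, hδ, hδ1, hK, h⟩ := up_main (Pool.Agent.H319R2.Leigh.gm_fac D)
      (Pool.Agent.H319R2.Leigh.gm_cls D hC) (f := (X : ℤ[X])) natDegree_X.ge hτ0 hmu2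
      (ε := 1 + τ - s) (by rw [hτ]; linarith)
    refine rare _ K δ hδ fun X' hX F hF => h X' hX F fun x hx => ?_
    obtain ⟨h1, c, hc, hxc, hlow⟩ := hF x hx
    refine ⟨h1, Mo.mem_S (le_refl 2) _, fun k => ?_⟩
    have h2 := hlow _ (cycle_iter hc hxc k)
    rw [eval_X, hT, natDegree_X]
    have e1 : 1 + τ / ((1 : ℕ) : ℝ) - (1 + τ - s) = s := by
      push_cast
      ring
    rw [e1]
    exact h2

end Pool.Agent.Results.MP_dee342_nt.WindowsWithoutCycles
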